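import Pool.Agent.K3h1.TF.Stm

/-! Choice of two primes (brick DIR). -/

set_option autoImplicit false

namespace Pool.Agent.K3h73.TC

open Pool.Agent.K3h1.TF

theorem dirich (m : ℕ) (hm : m ≠ 0) (N : ℕ) (hN : N.Coprime m) (b : ℕ) :
    ∃ c : ℕ, c.Prime ∧ b < c ∧ c ≡ N [MOD m] := by
  haveI : NeZero m := ⟨hm⟩
  obtain ⟨c, h1, h2, h3⟩ := Nat.forall_exists_prime_gt_and_eq_mod
    (q := m) (a := (N : ZMod m)) ((ZMod.isUnit_iff_coprime N m).2 hN) b
  exact ⟨c, h2, h1, (ZMod.natCast_eq_natCast_iff c N m).1 h3⟩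

theorem t_DIR : S_DIR := by
  intro p hp h5 u hu hu1
  haveI : Fact p.Prime := ⟨hp⟩
  have hp0 : p ^ 2 ≠ 0 := pow_ne_zero 2 hp.ne_zero
  have hred : ∀ {a b : ℕ}, a ≡ b [MOD p ^ 2] → (a : ZMod p) = b := by
    intro a b h
    exact (ZMod.natCast_eq_natCast_iff a b p).2 (h.of_dvd (dvd_pow_self p two_ne_zero))
  have hne : ∀ k : ℕ, 0 < k → k < p → (k : ZMod p) ≠ 0 := by
    intro k h1 h2 h3
    rw [ZMod.natCast_eq_zero_iff] at h3
    exact absurd (Nat.le_of_dvd h1 h3) (by omega)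
  have hcop : ∀ a : ℕ, (a : ZMod p) ≠ 0 → a.Coprime (p ^ 2) := by
    intro a ha
    apply Nat.Coprime.pow_right
    rw [Nat.coprime_comm, hp.coprime_iff_not_dvd]
    intro h
    exact ha ((ZMod.natCast_eq_zero_iff a p).2 h)
  have h4 : (4 : ZMod p) ≠ 0 := by
    have := hne 4 (by norm_num) (by omega)
    exact_mod_cast this
  constructor
  · have h1 : ((1 + u : ℕ) : ZMod p) ≠ 0 := hne _ (by omega) (by omega)
    obtain ⟨t, ht⟩ : ∃ t : ℕ, (t : ZMod p) = ((1 + u : ℕ) : ZMod p)⁻¹ * 4 :=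
      ⟨_, ZMod.natCast_zmod_val _⟩
    have ht0 : (t : ZMod p) ≠ 0 := by
      rw [ht]
      exact mul_ne_zero (inv_ne_zero h1) h4
    have hN : (((1 + u ^ p) * t ^ p : ℕ) : ZMod p) = 4 := by
      rw [Nat.cast_mul, Nat.cast_add, Nat.cast_pow, Nat.cast_pow, ZMod.pow_card, ZMod.pow_card,
        ← Nat.cast_add, ht, mul_inv_cancel_left₀ h1]
    obtain ⟨c, c1, c2, c3⟩ := dirich (p ^ 2) hp0 ((1 + u ^ p) * t ^ p)
      (hcop _ (by rw [hN]; exact h4)) p
    have hc : (c : ZMod p) = 4 := (hred c3).trans hN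
    refine ⟨c, t, c1, c2, ?_, ⟨2, by rw [hc]; norm_num⟩, ?_, c3⟩
    · intro h
      have h6 : (c : ZMod p) = ((1 : ℕ) : ZMod p) := by
        rw [ZMod.natCast_eq_natCast_iff]
        show c % p = 1 % p
        rw [h, Nat.mod_eq_of_lt (by omega)]
      rw [hc] at h6
      have h7 := hne 3 (by norm_num) (by omega)
      apply h7
      have h8 : (4 : ZMod p) - 1 = 0 := by rw [h6]; simp
      have h9 : ((3 : ℕ) : ZMod p) = 4 - 1 := by push_cast; norm_num
      rw [h9, h8]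
    · intro h
      exact ht0 ((ZMod.natCast_eq_zero_iff t p).2 h)
  · obtain ⟨a, ha⟩ := FiniteField.exists_nonsquare (F := ZMod p) (by
      rw [ZMod.ringChar_zmod_n]; omega)
    have ha0 : a ≠ 0 := by
      rintro rfl
      exact ha ⟨0, by simp⟩
    obtain ⟨m, hm⟩ : ∃ m : ℕ, (m : ZMod p) = a := ⟨_, ZMod.natCast_zmod_val a⟩
    obtain ⟨g, hg, hgn⟩ : ∃ g : ℕ, (g : ZMod p) = a ∧ ¬ p ^ 2 ∣ g ^ (p - 1) - 1 := by
      by_contra hcon
      push Not at hcon
      have key : ∀ g : ℕ, (g : ZMod p) = a → ((p : ℤ) ^ 2) ∣ (g : ℤ) ^ p - g := by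
        intro g hg
        have h1 := hcon g hg
        have h2 : 1 ≤ g ^ (p - 1) := by
          apply Nat.one_le_pow
          rcases Nat.eq_zero_or_pos g with h | h
          · exfalso
            rw [h, Nat.cast_zero] at hg
            exact ha0 hg.symm
          · exact h
        have h3 : ((p : ℤ) ^ 2) ∣ (g : ℤ) ^ (p - 1) - 1 := by
          have h6 : ((p ^ 2 : ℕ) : ℤ) ∣ ((g ^ (p - 1) - 1 : ℕ) : ℤ) := Int.natCast_dvd_natCast.2 h1
          rw [Nat.cast_sub h2] at h6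
          push_cast at h6
          exact h6
        have h6 : (g : ℤ) ^ p - g = ((g : ℤ) ^ (p - 1) - 1) * g := by
          rw [sub_mul, one_mul, ← pow_succ, Nat.sub_add_cancel hp.one_lt.le]
        rw [h6]
        exact Dvd.dvd.mul_right h3 _
      have k1 := key m hm
      have k2 := key (m + p) (by push_cast; rw [hm]; simp)
      have k3 : ((p : ℤ) ^ 2) ∣ ((m + p : ℕ) : ℤ) ^ p - (m : ℤ) ^ p := by
        have h6 := dvd_sub_pow_of_dvd_sub (R := ℤ) (p := p) (a := ((m + p : ℕ) : ℤ)) (b := (m : ℤ))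
          ⟨1, by push_cast; ring⟩ 1
        rw [pow_one] at h6
        exact h6
      have k4 : ((p : ℤ) ^ 2) ∣ p := by
        have h6 := dvd_sub (dvd_add k1 k3) k2
        have h7 : (m : ℤ) ^ p - m + (((m + p : ℕ) : ℤ) ^ p - (m : ℤ) ^ p) -
            (((m + p : ℕ) : ℤ) ^ p - ((m + p : ℕ) : ℤ)) = p := by push_cast; ring
        rwa [h7] at h6
      have k5 : p ^ 2 ∣ p := by exact_mod_cast k4
      have k6 := Nat.le_of_dvd hp.pos k5
      nlinarith [hp.one_lt]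
    obtain ⟨r, r1, r2, r3⟩ := dirich (p ^ 2) hp0 g (hcop g (by rw [hg]; exact ha0)) p
    refine ⟨r, r1, r2, ?_, ?_⟩
    · rw [hred r3, hg]
      exact ha
    · intro h
      apply hgn
      have h6 : 1 ≤ r ^ (p - 1) := Nat.one_le_pow _ _ r1.pos
      have h7 : 1 ≤ g ^ (p - 1) := by
        apply Nat.one_le_pow
        rcases Nat.eq_zero_or_pos g with h | h
        · exfalso
          rw [h, Nat.cast_zero] at hg
          exact ha0 hg.symm
        · exact h
      have h8 : 1 ≡ r ^ (p - 1) [MOD p ^ 2] := (Nat.modEq_iff_dvd' h6).2 h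
      have h9 : 1 ≡ g ^ (p - 1) [MOD p ^ 2] := h8.trans (r3.pow _)
      exact (Nat.modEq_iff_dvd' h7).1 h9

end Pool.Agent.K3h73.TC
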