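import Pool.Agent.K3h1.TF.Stm

/-! Product of the conjugate linear factors (brick PRODZ). -/

set_option autoImplicit false

namespace Pool.Agent.K3h73.TC

open Pool.Agent.K3h1.TF NumberField IsDedekindDomain Polynomial Pool.Agent.Y546.WQ
  Pool.Agent.K3h1.FC
open scoped TensorProduct

theorem poly_id {p : ℕ} (hpp : p.Prime) (hp2 : p ≠ 2) {E : Type} [Field E] [DecidableEq E]
    {z : E} (hz : IsPrimitiveRoot z p) :
    ∏ ξ ∈ (nthRootsFinset p (1 : E)).erase 1, (X + C ξ) =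
      ∑ i ∈ Finset.range p, (X : E[X]) ^ i * (-1) ^ (p - 1 - i) := by
  have hodd : Odd p := hpp.odd_of_ne_two hp2
  have h1 : ∏ ξ ∈ nthRootsFinset p (1 : E), (X + C ξ) = X ^ p + 1 := by
    have h2 := congrArg (fun f : E[X] => f.comp (-X)) (X_pow_sub_one_eq_prod hpp.pos hz)
    beta_reduce at h2
    rw [Polynomial.prod_comp] at h2
    simp only [sub_comp, pow_comp, X_comp, one_comp, C_comp] at h2
    have h3 : ∀ ξ ∈ nthRootsFinset p (1 : E), (-X - C ξ : E[X]) = (-1) * (X + C ξ) := by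
      intro ξ _
      ring
    rw [Finset.prod_congr rfl h3, Finset.prod_mul_distrib, Finset.prod_const,
      hz.card_nthRootsFinset, hodd.neg_one_pow, hodd.neg_pow] at h2
    linear_combination h2
  have hmem : (1 : E) ∈ nthRootsFinset p (1 : E) := by
    rw [mem_nthRootsFinset hpp.pos]
    exact one_pow p
  have h4 := Finset.mul_prod_erase (nthRootsFinset p (1 : E)) (fun ξ => (X + C ξ : E[X])) hmem
  have h5 := (Commute.all (X : E[X]) (-1)).mul_geom_sum₂ p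
  have h6 : (X + C 1 : E[X]) ≠ 0 := (monic_X_add_C 1).ne_zero
  apply mul_left_cancel₀ h6
  beta_reduce at h4
  rw [h4, h1, C_1]
  rw [sub_neg_eq_add, hodd.neg_one_pow, sub_neg_eq_add] at h5
  exact h5.symm

theorem t_PRODZ : S_PRODZ := by
  intro p hp hp2 E _ _ _ k r _ x y hy
  have hpp : p.Prime := hp.out
  obtain ⟨φ, hφ⟩ : ∃ φ : E →+* Loc r E, ∀ e, φ e = (1 : ℚ_[r]) ⊗ₜ[ℚ] e :=
    ⟨(Algebra.TensorProduct.includeRight : E →ₐ[ℚ] Loc r E).toRingHom, fun e => rfl⟩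
  have h1 := congrArg (fun f : E[X] => f.eval₂ φ ((x * y⁻¹) ⊗ₜ[ℚ] (1 : E)))
    (poly_id hpp hp2 k.prim)
  beta_reduce at h1
  rw [eval₂_finsetProd, eval₂_finsetSum] at h1
  have h2 : ∏ ξ ∈ (nthRootsFinset p (1 : E)).erase 1,
      (x ⊗ₜ[ℚ] (1 : E) + y ⊗ₜ[ℚ] ξ : Loc r E) =
      ∏ ξ ∈ (nthRootsFinset p (1 : E)).erase 1, ((y ⊗ₜ[ℚ] (1 : E)) *
        (X + C ξ).eval₂ φ ((x * y⁻¹) ⊗ₜ[ℚ] (1 : E))) := by
    refine Finset.prod_congr rfl fun ξ _ => ?_
    rw [eval₂_add, eval₂_X, eval₂_C, hφ, mul_add, Algebra.TensorProduct.tmul_mul_tmul,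
      Algebra.TensorProduct.tmul_mul_tmul, one_mul, one_mul, mul_one]
    congr 2
    field_simp
  have hmem : (1 : E) ∈ nthRootsFinset p (1 : E) := by
    rw [mem_nthRootsFinset hpp.pos]
    exact one_pow p
  rw [h2, Finset.prod_mul_distrib, Finset.prod_const, Finset.card_erase_of_mem hmem,
    k.prim.card_nthRootsFinset, h1, Finset.mul_sum, TensorProduct.sum_tmul]
  refine Finset.sum_congr rfl fun i hi => ?_
  rw [Finset.mem_range] at hi
  rw [eval₂_mul, eval₂_pow, eval₂_X, eval₂_pow, eval₂_neg, eval₂_one,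
    Algebra.TensorProduct.tmul_pow, Algebra.TensorProduct.tmul_pow, one_pow, one_pow,
    ← mul_assoc, Algebra.TensorProduct.tmul_mul_tmul, one_mul]
  have h3 : ((-1 : Loc r E)) ^ (p - 1 - i) = ((-1 : ℚ_[r]) ^ (p - 1 - i)) ⊗ₜ[ℚ] (1 : E) := by
    have h5 : (-1 : Loc r E) = (-1 : ℚ_[r]) ⊗ₜ[ℚ] (1 : E) := by
      rw [TensorProduct.neg_tmul]
      rfl
    rw [h5, Algebra.TensorProduct.tmul_pow, one_pow]
  rw [h3, Algebra.TensorProduct.tmul_mul_tmul, one_mul]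
  congr 1
  have h4 : y ^ (p - 1) = y ^ i * y ^ (p - 1 - i) := by
    rw [← pow_add]
    congr 1
    omega
  rw [h4, mul_pow, inv_pow, neg_pow y]
  field_simp

end Pool.Agent.K3h73.TC
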